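import Mathlib

/-!
# Upper broadcast domination minus boundary independence on trees

We show that `Γ_b(T) - α_bn(T)` is not bounded above on trees.

The tree `T k` has a root joined to `k` copies of a fixed gadget with `18` vertices.  The gadget
consists of `6` paths with three vertices (the columns; the vertices of a column have levels
`0, 1, 2`), joined to each other by edges between vertices of equal level.

* Sending `2` from every vertex of level `0` is a minimal dominating broadcast of weight `12 k`: the
  vertex of level `2` in a column hears only the vertex of level `0` of its own column.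
* There is a set of `11` heavy edges in the gadget such that for every vertex `a` of the gadget and
  every `r` that is at most the distance from `a` to the root, at least `r` heavy edges have an end
  at distance less than `r` from `a` (`table`).  For a boundary independent broadcast the sets of
  edges inside the balls are pairwise disjoint, and at most one ball has the root in its interior.
  Hence its weight is at most `11 k + 20`.
-/

namespace Pool.Agent.Results.MP_4edf50_co.BroadcastTrees

open Finset

section defs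

variable {V : Type} [Fintype V]

/-- The eccentricity `e(v) = max_u d(v,u)`. -/
noncomputable def ecc (G : SimpleGraph V) (v : V) : ℕ := Finset.univ.sup fun u => G.dist v u

/-- A broadcast: `f v ≤ e(v)` for every vertex. (In particular `f v ≤ diam G`.) -/
def IsBroadcast (G : SimpleGraph V) (f : V → ℕ) : Prop := ∀ v, f v ≤ ecc G v

/-- The weight of a broadcast. -/
def weight (f : V → ℕ) : ℕ := ∑ v, f v

/-- `u` hears `f` from `v`: `v` is broadcasting and `d(u,v) ≤ f v`. -/
def Hears (G : SimpleGraph V) (f : V → ℕ) (u v : V) : Prop := 0 < f v ∧ G.dist u v ≤ f v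

/-- every vertex hears `f` from some vertex -/
def Dominating (G : SimpleGraph V) (f : V → ℕ) : Prop := ∀ u, ∃ v, Hears G f u v

/-- `f` is a minimal dominating broadcast: it is a dominating broadcast, and no broadcast `g` with
`g ≤ f` pointwise and `g v < f v` for some `v` is dominating. -/
def MinimalDominating (G : SimpleGraph V) (f : V → ℕ) : Prop :=
  IsBroadcast G f ∧ Dominating G f ∧
    ∀ g : V → ℕ, IsBroadcast G g → (∀ v, g v ≤ f v) → (∃ v, g v < f v) → ¬ Dominating G g

/-- The upper broadcast domination number `Γ_b(G)`. -/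
noncomputable def GammaB (G : SimpleGraph V) : ℕ :=
  sSup {k | ∃ f : V → ℕ, MinimalDominating G f ∧ weight f = k}

/-- `f` is boundary independent: for distinct broadcasting vertices `u, v` every vertex `x` in
`N_f(u) ∩ N_f(v)` lies in `B_f(u) ∩ B_f(v)`. -/
def BnIndependent (G : SimpleGraph V) (f : V → ℕ) : Prop :=
  ∀ u v, u ≠ v → 0 < f u → 0 < f v →
    ∀ x, G.dist x u ≤ f u → G.dist x v ≤ f v → G.dist x u = f u ∧ G.dist x v = f v

/-- The boundary independence number `α_bn(G)`. -/
noncomputable def alphaBn (G : SimpleGraph V) : ℕ :=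
  sSup {k | ∃ f : V → ℕ, IsBroadcast G f ∧ BnIndependent G f ∧ weight f = k}

end defs

/-! ### Trees from parent functions -/

section parent

variable {V : Type} [Fintype V] [DecidableEq V]

lemma isTree_of_parent (root : V) (par : V → V) (dep : V → ℕ) (hroot : par root = root)
    (hdep : ∀ x, x ≠ root → dep (par x) < dep x) :
    (SimpleGraph.fromRel fun x y => par x = y).IsTree := by
  set T : SimpleGraph V := SimpleGraph.fromRel fun x y => par x = y with hT
  have hne : ∀ x, x ≠ root → par x ≠ x := by
    intro x hx h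
    have := hdep x hx
    rw [h] at this
    exact lt_irrefl _ this
  have hadj : ∀ x, x ≠ root → T.Adj x (par x) := by
    intro x hx
    rw [hT, SimpleGraph.fromRel_adj]
    exact ⟨(hne x hx).symm, Or.inl rfl⟩
  have hreach : ∀ n, ∀ x, dep x ≤ n → T.Reachable x root := by
    intro n
    induction n with
    | zero =>
      intro x hx
      by_cases h : x = root
      · rw [h]
      · have := hdep x h; omega
    | succ n ih =>
      intro x hx
      by_cases h : x = root
      · rw [h]
      · have h1 := hdep x h
        exact (hadj x h).reachable.trans (ih _ (by omega))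
  have hconn : T.Connected := by
    have : Nonempty V := ⟨root⟩
    exact ⟨fun x y => (hreach _ x le_rfl).trans (hreach _ y le_rfl).symm⟩
  rw [SimpleGraph.isTree_iff_connected_and_card]
  refine ⟨hconn, le_antisymm ?_ hconn.card_vert_le_card_edgeSet_add_one⟩
  -- the number of edges is at most the number of non-root vertices
  have hsurj : ∃ φ : {x : V // x ≠ root} → T.edgeSet, Function.Surjective φ := by
    refine ⟨fun x => ⟨s(x.1, par x.1), hadj x.1 x.2⟩, ?_⟩
    rintro ⟨e, he⟩
    induction e using Sym2.ind with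
    | _ x y =>
      rw [SimpleGraph.mem_edgeSet, hT, SimpleGraph.fromRel_adj] at he
      obtain ⟨hxy, h | h⟩ := he
      · have hx : x ≠ root := by
          rintro rfl
          rw [hroot] at h
          exact hxy h
        exact ⟨⟨x, hx⟩, Subtype.ext (by simp [h])⟩
      · have hy : y ≠ root := by
          rintro rfl
          rw [hroot] at h
          exact hxy h.symm
        exact ⟨⟨y, hy⟩, Subtype.ext (by simp [h, Sym2.eq_swap])⟩
  obtain ⟨φ, hφ⟩ := hsurj
  have h1 : Nat.card T.edgeSet ≤ Nat.card {x : V // x ≠ root} := Nat.card_le_card_of_surjective φ hφ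
  have h2 : Nat.card {x : V // x ≠ root} + 1 = Nat.card V := by
    rw [Nat.card_eq_fintype_card, Nat.card_eq_fintype_card, Fintype.card_subtype_compl,
      Fintype.card_subtype_eq]
    have : 0 < Fintype.card V := Fintype.card_pos_iff.2 ⟨root⟩
    omega
  omega

end parent

/-! ### The trees -/

/-- parent function of the gadget (the vertex `0` is attached to the common root) -/
def P : Fin 18 → Fin 18 := ![0, 0, 1, 1, 3, 3, 2, 6, 7, 8, 9, 10, 10, 10, 12, 12, 13, 13]

/-- levels -/
def L : Fin 18 → ℕ := ![0, 1, 2, 1, 0, 2, 2, 1, 0, 0, 1, 2, 1, 1, 0, 2, 0, 2]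

/-- columns -/
def Cl : Fin 18 → ℕ := ![0, 0, 0, 1, 1, 1, 2, 2, 2, 3, 3, 3, 4, 5, 4, 4, 5, 5]

/-- vertices: a common root `none` and `k` copies of the gadget -/
abbrev Vt (k : ℕ) : Type := Option (Fin k × Fin 18)

/-- parent function -/
def par {k : ℕ} : Vt k → Vt k
  | none => none
  | some (i, a) => if a = 0 then none else some (i, P a)

/-- The tree. -/
def T (k : ℕ) : SimpleGraph (Vt k) := SimpleGraph.fromRel fun x y => par x = y

/-- Distances inside the gadget, by recursion with fuel. -/
def Dn : ℕ → Fin 18 → Fin 18 → ℕ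
  | 0, _, _ => 0
  | n + 1, a, b => if a = b then 0 else if b < a then 1 + Dn n (P a) b else 1 + Dn n a (P b)

/-- heavy edges `{c, P c}`, indexed by their lower end -/
def F : Finset (Fin 18) := {1, 4, 5, 6, 8, 10, 11, 14, 15, 16, 17}

lemma P_lt : ∀ a : Fin 18, a ≠ 0 → P a < a := by decide

lemma table : ∀ a : Fin 18, ∀ r : Fin 11, (r : ℕ) ≤ Dn 34 a 0 + 1 →
    (r : ℕ) ≤ (F.filter fun c => Dn 34 a c < r ∨ Dn 34 a (P c) < r).card := by decide +kernel


section tree

variable {k : ℕ}

/-- depth -/
def dep : Vt k → ℕ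
  | none => 0
  | some (_, a) => (a : ℕ) + 1

lemma par_dep : ∀ x : Vt k, x ≠ none → dep (par x) < dep x := by
  rintro (_ | ⟨i, a⟩) hx
  · exact absurd rfl hx
  · by_cases ha : a = 0
    · simp [par, dep, ha]
    · have h := P_lt a ha
      simp only [par, if_neg ha, dep]
      have : (P a : ℕ) < a := h
      omega

lemma isTree (k : ℕ) : (T k).IsTree :=
  isTree_of_parent (none : Vt k) par dep rfl par_dep

lemma conn (k : ℕ) : (T k).Connected := (isTree k).connected

lemma adj_iff (x y : Vt k) : (T k).Adj x y ↔ x ≠ y ∧ (par x = y ∨ par y = x) := by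
  rw [T, SimpleGraph.fromRel_adj]

lemma adj_zero (i : Fin k) : (T k).Adj (some (i, 0)) none := by
  rw [adj_iff]
  exact ⟨by simp, Or.inl (by simp [par])⟩

lemma adj_P (i : Fin k) {a : Fin 18} (ha : a ≠ 0) : (T k).Adj (some (i, a)) (some (i, P a)) := by
  rw [adj_iff]
  refine ⟨?_, Or.inl (by simp [par, ha])⟩
  intro h
  have h1 := P_lt a ha
  simp only [Option.some.injEq, Prod.mk.injEq, true_and] at h
  rw [← h] at h1
  exact lt_irrefl _ h1

lemma dist_Dn (i : Fin k) : ∀ n (a b : Fin 18), (a : ℕ) + b ≤ n →
    (T k).dist (some (i, a)) (some (i, b)) ≤ Dn n a b := by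
  intro n
  induction n with
  | zero =>
    intro a b h
    have ha : a = b := by apply Fin.ext; omega
    subst ha
    simp
  | succ n ih =>
    intro a b h
    by_cases hab : a = b
    · subst hab; simp
    · simp only [Dn, if_neg hab]
      by_cases hlt : b < a
      · rw [if_pos hlt]
        have ha : a ≠ 0 := by
          rintro rfl
          exact absurd hlt (Fin.not_lt_zero b)
        have h1 := P_lt a ha
        have h1' : (P a : ℕ) < a := h1
        have h2 := (conn k).dist_triangle (u := some (i, a)) (v := some (i, P a)) (w := some (i, b))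
        have h3 : (T k).dist (some (i, a)) (some (i, P a)) = 1 :=
          SimpleGraph.dist_eq_one_iff_adj.2 (adj_P i ha)
        have h4 := ih (P a) b (by omega)
        omega
      · rw [if_neg hlt]
        have hb : b ≠ 0 := by
          rintro rfl
          apply hab
          apply Fin.ext
          have : ¬ (0 : Fin 18) < a := hlt
          rw [Fin.pos_iff_ne_zero, not_not] at this
          rw [this]
        have h1 := P_lt b hb
        have h1' : (P b : ℕ) < b := h1
        have h2 := (conn k).dist_triangle (u := some (i, a)) (v := some (i, P b)) (w := some (i, b))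
        have h3 : (T k).dist (some (i, P b)) (some (i, b)) = 1 :=
          SimpleGraph.dist_eq_one_iff_adj.2 (adj_P i hb).symm
        have h4 := ih a (P b) (by omega)
        omega

lemma dist_le34 (i : Fin k) (a b : Fin 18) :
    (T k).dist (some (i, a)) (some (i, b)) ≤ Dn 34 a b :=
  dist_Dn i 34 a b (by omega)

lemma dist_root (i : Fin k) (a : Fin 18) : (T k).dist (some (i, a)) none ≤ Dn 34 a 0 + 1 := by
  have h2 := (conn k).dist_triangle (u := some (i, a)) (v := some (i, 0)) (w := none)
  have h3 : (T k).dist (some (i, 0)) none = 1 := SimpleGraph.dist_eq_one_iff_adj.2 (adj_zero i)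
  have h4 := dist_le34 i a 0
  omega

lemma Dn_zero_le : ∀ a : Fin 18, Dn 34 a 0 + 1 ≤ 10 := by decide +kernel

lemma dist_root_le (x : Vt k) : (T k).dist x none ≤ 10 := by
  rcases x with _ | ⟨i, a⟩
  · simp
  · exact (dist_root i a).trans (Dn_zero_le a)

lemma ecc_le (x : Vt k) : ecc (T k) x ≤ 20 := by
  unfold ecc
  refine Finset.sup_le fun u _ => ?_
  have h2 := (conn k).dist_triangle (u := x) (v := none) (w := u)
  have h3 := dist_root_le x
  have h4 := dist_root_le u
  rw [SimpleGraph.dist_comm] at h4
  omega

/-! #### Upper bound for `α_bn` -/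

open Classical in
/-- The heavy edges in the ball of `v`. -/
noncomputable def EB (f : Vt k → ℕ) (v : Vt k) : Finset (Fin k × Fin 18) :=
  Finset.univ.filter fun e => e.2 ∈ F ∧
    ((T k).dist v (some e) < f v ∨ (T k).dist v (some (e.1, P e.2)) < f v)

lemma zero_notMem_F : ∀ c ∈ F, c ≠ 0 := by decide

lemma EB_disjoint {f : Vt k → ℕ} (hf : BnIndependent (T k) f) {u v : Vt k} (huv : u ≠ v)
    (hu : 0 < f u) (hv : 0 < f v) : Disjoint (EB f u) (EB f v) := by
  classical
  rw [Finset.disjoint_left]
  rintro ⟨i, c⟩ h1 h2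
  simp only [EB, Finset.mem_filter, Finset.mem_univ, true_and] at h1 h2
  obtain ⟨hc, h1⟩ := h1
  obtain ⟨-, h2⟩ := h2
  have hadj := adj_P i (zero_notMem_F c hc)
  have hd1 : (T k).dist (some (i, c)) (some (i, P c)) = 1 := SimpleGraph.dist_eq_one_iff_adj.2 hadj
  have hd2 : (T k).dist (some (i, P c)) (some (i, c)) = 1 := SimpleGraph.dist_eq_one_iff_adj.2 hadj.symm
  have ha := (conn k).dist_triangle (u := v) (v := some (i, P c)) (w := some (i, c))
  have hb := (conn k).dist_triangle (u := v) (v := some (i, c)) (w := some (i, P c))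
  rcases h1 with h1 | h1
  · have h3 := hf u v huv hu hv (some (i, c)) (by rw [SimpleGraph.dist_comm]; exact h1.le)
      (by rw [SimpleGraph.dist_comm]; omega)
    rw [SimpleGraph.dist_comm] at h3
    omega
  · have h3 := hf u v huv hu hv (some (i, P c)) (by rw [SimpleGraph.dist_comm]; exact h1.le)
      (by rw [SimpleGraph.dist_comm]; omega)
    rw [SimpleGraph.dist_comm] at h3
    omega

lemma EB_card {f : Vt k → ℕ} (i : Fin k) (a : Fin 18) (h : f (some (i, a)) ≤ (T k).dist (some (i, a)) none) :
    f (some (i, a)) ≤ (EB f (some (i, a))).card := by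
  classical
  have h1 := dist_root i a
  have h2 := Dn_zero_le a
  have h3 := table a ⟨f (some (i, a)), by omega⟩ (by simp only; omega)
  simp only at h3
  refine h3.trans ?_
  refine Finset.card_le_card_of_injOn (fun c => (i, c)) ?_ ?_
  · intro c hc
    simp only [Finset.coe_filter, Set.mem_ofPred_eq] at hc
    simp only [EB, Finset.coe_filter, Finset.mem_univ, true_and, Set.mem_ofPred_eq]
    refine ⟨hc.1, ?_⟩
    rcases hc.2 with h4 | h4
    · exact Or.inl (lt_of_le_of_lt (dist_le34 i a c) h4)
    · exact Or.inr (lt_of_le_of_lt (dist_le34 i a (P c)) h4)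
  · intro c _ c' _ hcc
    simpa using hcc

/-- Every boundary independent broadcast has weight at most `11 k + 20`. -/
lemma weight_le {f : Vt k → ℕ} (hb : IsBroadcast (T k) f) (hf : BnIndependent (T k) f) :
    weight f ≤ 11 * k + 20 := by
  classical
  -- vertices whose ball has the root in its interior
  set R : Finset (Vt k) := Finset.univ.filter fun v => (T k).dist v none < f v with hR
  have hR1 : R.card ≤ 1 := by
    rw [Finset.card_le_one]
    intro u hu v hv
    by_contra huv
    rw [hR, Finset.mem_filter] at hu hv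
    have h3 := hf u v huv (by omega) (by omega) none
      (by rw [SimpleGraph.dist_comm]; exact hu.2.le) (by rw [SimpleGraph.dist_comm]; exact hv.2.le)
    rw [SimpleGraph.dist_comm] at h3
    omega
  have hsplit : weight f = ∑ v ∈ R, f v + ∑ v ∈ Rᶜ, f v := by
    unfold weight
    rw [Finset.sum_add_sum_compl]
  have h1 : ∑ v ∈ R, f v ≤ 20 := by
    calc ∑ v ∈ R, f v ≤ ∑ v ∈ R, 20 := Finset.sum_le_sum fun v _ => (hb v).trans (ecc_le v)
      _ = R.card * 20 := by simp
      _ ≤ 20 := by omega
  have h2 : ∑ v ∈ Rᶜ, f v ≤ 11 * k := by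
    set S : Finset (Vt k) := Rᶜ.filter fun v => 0 < f v with hS
    have h3 : ∑ v ∈ Rᶜ, f v = ∑ v ∈ S, f v := by
      rw [hS, Finset.sum_filter]
      refine Finset.sum_congr rfl fun v _ => ?_
      split_ifs with h
      · rfl
      · omega
    have h4 : ∀ v ∈ S, f v ≤ (EB f v).card := by
      intro v hv
      rw [hS, Finset.mem_filter, Finset.mem_compl, hR, Finset.mem_filter] at hv
      obtain ⟨hv1, hv2⟩ := hv
      have hv3 : f v ≤ (T k).dist v none := by
        by_contra hcon
        exact hv1 ⟨Finset.mem_univ _, by omega⟩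
      rcases v with _ | ⟨i, a⟩
      · simp at hv3; omega
      · exact EB_card i a hv3
    have h5 : ∑ v ∈ S, (EB f v).card = (S.biUnion (EB f)).card := by
      rw [Finset.card_biUnion]
      intro u hu v hv huv
      rw [Finset.mem_coe, hS, Finset.mem_filter] at hu hv
      exact EB_disjoint hf huv hu.2 hv.2
    have h6 : (S.biUnion (EB f)).card ≤ ((Finset.univ : Finset (Fin k)) ×ˢ F).card := by
      apply Finset.card_le_card
      intro e he
      rw [Finset.mem_biUnion] at he
      obtain ⟨v, -, hv⟩ := he
      simp only [EB, Finset.mem_filter] at hv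
      rw [Finset.mem_product]
      exact ⟨Finset.mem_univ _, hv.2.1⟩
    have h7 : ((Finset.univ : Finset (Fin k)) ×ˢ F).card = 11 * k := by
      rw [Finset.card_product, Finset.card_univ, Fintype.card_fin, mul_comm]
      rfl
    calc ∑ v ∈ Rᶜ, f v = ∑ v ∈ S, f v := h3
      _ ≤ ∑ v ∈ S, (EB f v).card := Finset.sum_le_sum h4
      _ = (S.biUnion (EB f)).card := h5
      _ ≤ 11 * k := h6.trans h7.le
  omega

lemma alphaBn_le (k : ℕ) : alphaBn (T k) ≤ 11 * k + 20 := by
  unfold alphaBn
  apply csSup_le
  · refine ⟨0, fun _ => 0, fun _ => Nat.zero_le _, ?_, by simp [weight]⟩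
    intro u v _ h
    exact absurd h (lt_irrefl _)
  · rintro _ ⟨f, hb, hf, rfl⟩
    exact weight_le hb hf

/-! #### Lower bound for `Γ_b` -/

/-- level of a vertex -/
def lev : Vt k → ℕ
  | none => 0
  | some (_, a) => L a

/-- column of a vertex -/
def col : Vt k → Option (Fin k × ℕ)
  | none => none
  | some (i, a) => some (i, Cl a)

lemma table2 : ∀ a : Fin 18, a ≠ 0 → (L a = L (P a) ∨
    (Cl a = Cl (P a) ∧ (L a = L (P a) + 1 ∨ L (P a) = L a + 1))) := by decide

lemma par_lev : ∀ x : Vt k, lev x = lev (par x) ∨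
    (col x = col (par x) ∧ (lev x = lev (par x) + 1 ∨ lev (par x) = lev x + 1)) := by
  rintro (_ | ⟨i, a⟩)
  · exact Or.inl rfl
  · by_cases ha : a = 0
    · subst ha
      left
      simp [par, lev, L]
    · simp only [par, if_neg ha, lev, col, Option.some.injEq, Prod.mk.injEq, true_and]
      exact table2 a ha

lemma adj_lev {x y : Vt k} (h : (T k).Adj x y) : lev x = lev y ∨
    (col x = col y ∧ (lev x = lev y + 1 ∨ lev y = lev x + 1)) := by
  rw [adj_iff] at h
  rcases h.2 with rfl | rfl
  · exact par_lev x
  · rcases par_lev y with h | ⟨h1, h2⟩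
    · exact Or.inl h.symm
    · exact Or.inr ⟨h1.symm, h2.symm⟩

lemma walk_lev {x y : Vt k} (p : (T k).Walk x y) : lev y ≤ lev x + p.length := by
  induction p with
  | nil => simp
  | cons h p ih =>
    have := adj_lev h
    rw [SimpleGraph.Walk.length_cons]
    omega

lemma lev_le_dist (x y : Vt k) : lev y ≤ lev x + (T k).dist x y := by
  obtain ⟨p, hp⟩ := (conn k).exists_walk_length_eq_dist x y
  rw [← hp]
  exact walk_lev p

/-- a vertex of level `0` and a vertex of level `2` at distance at most `2` are in one column -/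
lemma col_eq {x y : Vt k} (hx : lev x = 0) (hy : lev y = 2) (h : (T k).dist x y ≤ 2) :
    col x = col y := by
  obtain ⟨p, hp⟩ := (conn k).exists_walk_length_eq_dist x y
  rw [← hp] at h
  cases p with
  | nil => rfl
  | cons h1 p =>
    cases p with
    | nil =>
      have := adj_lev h1
      omega
    | cons h2 p =>
      cases p with
      | nil =>
        have h3 := adj_lev h1
        have h4 := adj_lev h2
        rcases h3 with h3 | ⟨h3, h3'⟩
        · rcases h4 with h4 | ⟨h4, h4'⟩ <;> omega
        · rcases h4 with h4 | ⟨h4, h4'⟩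
          · omega
          · rw [h3, h4]
      | cons h3 p =>
        simp only [SimpleGraph.Walk.length_cons] at h
        omega

/-- the broadcast of weight `12 k` -/
def f0 : Vt k → ℕ
  | none => 0
  | some (_, a) => if L a = 0 then 2 else 0

lemma f0_pos {x : Vt k} (h : 0 < f0 x) : lev x = 0 ∧ f0 x = 2 ∧ ∃ i a, x = some (i, a) := by
  rcases x with _ | ⟨i, a⟩
  · simp [f0] at h
  · simp only [f0] at h ⊢
    split_ifs at h with h1
    · simp only [if_pos h1]
      exact ⟨h1, trivial, i, a, rfl⟩
    · exact absurd h (lt_irrefl _)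

lemma table3 : ∀ a : Fin 18, ∃ b : Fin 18, L b = 0 ∧ Dn 34 a b ≤ 2 := by decide +kernel

lemma table4 : ∀ a : Fin 18, L a = 0 → ∃ b : Fin 18, L b = 2 ∧ Cl b = Cl a := by decide

lemma table5 : ∀ a b : Fin 18, L a = 0 → L b = 0 → Cl a = Cl b → a = b := by decide

lemma f0_broadcast : IsBroadcast (T k) f0 := by
  intro v
  by_cases h : 0 < f0 v
  · obtain ⟨h1, h2, i, a, rfl⟩ := f0_pos h
    obtain ⟨b, hb1, hb2⟩ := table4 a h1
    rw [h2]
    have h3 := lev_le_dist (some (i, a)) (some (i, b) : Vt k)
    have h4 : lev (some (i, b) : Vt k) = 2 := hb1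
    have h5 : (T k).dist (some (i, a)) (some (i, b)) ≤ ecc (T k) (some (i, a)) :=
      Finset.le_sup (f := fun u => (T k).dist (some (i, a)) u) (Finset.mem_univ _)
    omega
  · omega

lemma f0_dominating (hk : 0 < k) : Dominating (T k) f0 := by
  rintro (_ | ⟨i, a⟩)
  · refine ⟨some (⟨0, hk⟩, 0), ?_, ?_⟩
    · simp [f0, L]
    · have := dist_root (⟨0, hk⟩ : Fin k) 0
      rw [SimpleGraph.dist_comm]
      refine this.trans ?_
      simp [f0, L, Dn]
  · obtain ⟨b, hb1, hb2⟩ := table3 a
    refine ⟨some (i, b), ?_, ?_⟩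
    · simp [f0, hb1]
    · have := dist_le34 i a b
      simp only [f0, hb1, if_true]
      omega

lemma f0_minimal (hk : 0 < k) : MinimalDominating (T k) f0 := by
  refine ⟨f0_broadcast, f0_dominating hk, ?_⟩
  rintro g hg hle ⟨v, hv⟩ hdom
  obtain ⟨h1, h2, i, a, rfl⟩ := f0_pos (lt_of_le_of_lt (Nat.zero_le _) hv)
  obtain ⟨b, hb1, hb2⟩ := table4 a h1
  obtain ⟨w, hw1, hw2⟩ := hdom (some (i, b))
  obtain ⟨h3, h4, j, c, rfl⟩ := f0_pos (lt_of_lt_of_le hw1 (hle w))
  have h5 : (T k).dist (some (j, c)) (some (i, b)) ≤ 2 := by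
    rw [SimpleGraph.dist_comm]
    have := hle (some (j, c))
    omega
  have h6 := col_eq h3 (show lev (some (i, b) : Vt k) = 2 from hb1) h5
  simp only [col, Option.some.injEq, Prod.mk.injEq] at h6
  obtain ⟨rfl, h7⟩ := h6
  have h8 : c = a := table5 c a h3 h1 (h7.trans hb2)
  subst h8
  have h9 := lev_le_dist (some (j, c)) (some (j, b) : Vt k)
  have h10 : lev (some (j, b) : Vt k) = 2 := hb1
  rw [SimpleGraph.dist_comm] at hw2
  have h11 : lev (some (j, c) : Vt k) = 0 := h3
  omega

lemma weight_f0 : weight (f0 : Vt k → ℕ) = 12 * k := by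
  unfold weight
  rw [Fintype.sum_option]
  have h1 : ∑ x : Fin k × Fin 18, f0 (some x : Vt k) = ∑ i : Fin k, ∑ a : Fin 18, (if L a = 0 then 2 else 0) := by
    rw [Fintype.sum_prod_type]
    rfl
  have h2 : ∑ a : Fin 18, (if L a = 0 then 2 else 0) = 12 := by decide
  rw [h1, h2]
  simp [f0, mul_comm]

lemma GammaB_ge (hk : 0 < k) : 12 * k ≤ GammaB (T k) := by
  unfold GammaB
  apply le_csSup
  · refine ⟨∑ v, ecc (T k) v, ?_⟩
    rintro _ ⟨f, hf, rfl⟩
    exact Finset.sum_le_sum fun v _ => hf.1 v
  · exact ⟨f0, f0_minimal hk, weight_f0⟩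

end tree

/-- **Main result.** For every `C` there is a tree `T` with `Γ_b(T) - α_bn(T) > C`. -/
theorem result : ∀ C : ℕ, ∃ (V : Type) (_ : Fintype V) (T : SimpleGraph V),
    T.IsTree ∧ 2 ≤ Fintype.card V ∧ alphaBn T + C < GammaB T := by
  intro C
  refine ⟨Vt (C + 21), inferInstance, T (C + 21), isTree _, ?_, ?_⟩
  · simp only [Fintype.card_option, Fintype.card_prod, Fintype.card_fin]
    omega
  · have h1 := alphaBn_le (C + 21)
    have h2 := GammaB_ge (k := C + 21) (by omega)
    omega

end Pool.Agent.Results.MP_4edf50_co.BroadcastTrees
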